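import Pool.Agent.Helper832_EG.PD6
import Pool.Agent.H55.MU.Stm

/-!
# Unramified cyclic extensions of prime power degree: the degree is at most the class number

`K` is totally complex, `L / K` is cyclic of degree `p ^ k` and unramified at all finite places. Then
`p ^ k ≤ h(K)`: the capitulation kernel has at least `p ^ k` elements (Hilbert 94).
-/

set_option linter.style.haveILetI false
set_option autoImplicit false

open NumberField Ideal Module Pool.Agent.Helper832_EG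
open scoped Pointwise nonZeroDivisors

namespace Pool.Agent.H17.HKF

section
variable {K L : Type} [Field K] [NumberField K] [Field L] [NumberField L] [Algebra K L]
  [IsGalois K L]

/-- Hilbert 90. -/
lemma h90 {n : ℕ} (hcard : Nat.card Gal(L/K) = n) {σ : Gal(L/K)}
    (hσ : ∀ g : Gal(L/K), g ∈ Subgroup.zpowers σ) {y : (𝓞 L)ˣ} (hy : nU n σ y = 1) :
    ∃ b : 𝓞 L, b ≠ 0 ∧ σ • b = y * b := by
  classical
  haveI : IsCyclic Gal(L/K) := ⟨σ, hσ⟩
  have hord : orderOf σ = n := by rw [orderOf_eq_card_of_forall_mem_zpowers hσ, hcard]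
  have hnorm : Algebra.norm K ((y : 𝓞 L) : L) = 1 := by
    apply (algebraMap K L).injective
    rw [Algebra.norm_eq_prod_automorphisms, map_one]
    have h1 : (Finset.univ : Finset Gal(L/K)) = Finset.image (fun i => σ ^ i) (Finset.range n) := by
      rw [← hord, IsCyclic.image_range_orderOf hσ]
    rw [h1, Finset.prod_image]
    · have h2 := congrArg (fun z : (𝓞 L)ˣ => ((z : 𝓞 L) : L)) hy
      have h3 : (((nU n σ y : (𝓞 L)ˣ) : 𝓞 L) : L) =
          ∏ i ∈ Finset.range n, (σ ^ i) ((y : 𝓞 L) : L) := by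
        show (((∏ i ∈ Finset.range n, (sU σ)^[i] y : (𝓞 L)ˣ) : 𝓞 L) : L) = _
        rw [Units.coe_prod]
        refine (map_prod (algebraMap (𝓞 L) L) _ _).trans ?_
        refine Finset.prod_congr rfl fun i _ => ?_
        rw [sU_iter]; rfl
      rw [← h3]
      simpa using h2
    · intro i hi j hj hij
      rw [← hord] at hi hj
      exact pow_injOn_Iio_orderOf (Finset.mem_range.1 (Finset.mem_coe.1 hi))
        (Finset.mem_range.1 (Finset.mem_coe.1 hj)) hij
  have hnorm' : Algebra.norm K (algebraMap (𝓞 L) L ((y⁻¹ : (𝓞 L)ˣ) : 𝓞 L)) = 1 := by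
    have h1 : algebraMap (𝓞 L) L ((y⁻¹ : (𝓞 L)ˣ) : 𝓞 L) = (((y : 𝓞 L) : L))⁻¹ := by
      refine eq_inv_of_mul_eq_one_left ?_
      rw [← map_mul, y.inv_mul, map_one]
    rw [h1, Algebra.norm_inv, hnorm, inv_one]
  obtain ⟨b, hb, hb'⟩ := groupCohomology.exists_mul_galRestrict_of_norm_eq_one (A := 𝓞 K) (K := K)
    (L := L) (B := 𝓞 L) hσ hnorm'
  refine ⟨b, hb, ?_⟩
  have h1 : galRestrict (𝓞 K) K L (𝓞 L) σ b = σ • b := by
    apply FaithfulSMul.algebraMap_injective (𝓞 L) L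
    rw [algebraMap_galRestrict_apply]; rfl
  rw [h1] at hb'
  calc σ • b = (y : 𝓞 L) * (((y⁻¹ : (𝓞 L)ˣ) : 𝓞 L) * σ • b) := by
        rw [← mul_assoc, y.mul_inv, one_mul]
    _ = y * b := by rw [hb']

/-- Units fixed by a power of the generator. -/
lemma rank_fix [IsTotallyComplex K] {p k : ℕ} [hp : Fact p.Prime]
    (hcard : Nat.card Gal(L/K) = p ^ k) {σ : Gal(L/K)}
    (hσ : ∀ g : Gal(L/K), g ∈ Subgroup.zpowers σ) {j : ℕ} (hj : j ≤ k)
    (δj : (𝓞 L)ˣ →* (𝓞 L)ˣ) (hδ : ∀ u, δj u = (sU σ)^[p ^ j] u / u) :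
    finrank ℤ (Additive δj.ker) + 1 = p ^ j * (finrank ℤ (Additive (𝓞 K)ˣ) + 1) := by
  classical
  have hord : orderOf σ = p ^ k := by rw [orderOf_eq_card_of_forall_mem_zpowers hσ, hcard]
  set H : Subgroup Gal(L/K) := Subgroup.zpowers (σ ^ p ^ j) with hH
  set F : IntermediateField K L := IntermediateField.fixedField H with hF
  haveI : NumberField F := NumberField.of_module_finite K F
  haveI : IsTotallyComplex F := isTotallyComplex_of_algebra K F
  have hfix : F.fixingSubgroup = H := IntermediateField.fixingSubgroup_fixedField H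
  have hmem : σ ^ p ^ j ∈ F.fixingSubgroup := by rw [hfix]; exact Subgroup.mem_zpowers _
  set e := IntermediateField.fixingSubgroupEquiv F with he
  set τ : Gal(L/F) := e ⟨σ ^ p ^ j, hmem⟩ with hτ
  have hτg : ∀ g : Gal(L/F), g ∈ Subgroup.zpowers τ := by
    intro g
    have h1 : ((e.symm g : F.fixingSubgroup) : Gal(L/K)) ∈ H := by
      rw [← hfix]; exact (e.symm g).2
    obtain ⟨n, hn⟩ := Subgroup.mem_zpowers_iff.1 h1
    refine Subgroup.mem_zpowers_iff.2 ⟨n, ?_⟩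
    rw [hτ, ← map_zpow, ← e.apply_symm_apply g]
    congr 1
    exact Subtype.ext hn
  have hδτ : δj = dU τ := by
    refine MonoidHom.ext fun u => ?_
    rw [hδ]
    show _ = sU τ u / u
    congr 1
    apply Units.ext
    rw [sU_iter, sU_coe]
    rfl
  rw [hδτ, finrank_ker_dU hτg]
  have h1 := finrank_units K
  have h2 := finrank_units F
  have hcardH : Nat.card H = p ^ (k - j) := by
    rw [hH, Nat.card_zpowers, orderOf_pow_of_dvd (pow_ne_zero _ hp.out.ne_zero)
      (by rw [hord]; exact pow_dvd_pow p hj), hord, Nat.pow_div hj hp.out.pos]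
  have h3 : finrank F L = p ^ (k - j) := by
    rw [← hcardH]; exact IntermediateField.finrank_fixedField_eq_card H
  have h4 : finrank K L = p ^ k := by rw [← IsGalois.card_aut_eq_finrank K L, hcard]
  have h5 : finrank K F * finrank F L = finrank K L := Module.finrank_mul_finrank K F L
  have h6 : finrank K F = p ^ j := by
    rw [h3, h4] at h5
    have h7 : p ^ k = p ^ j * p ^ (k - j) := by rw [← pow_add]; congr 1; omega
    rw [h7] at h5
    exact Nat.eq_of_mul_eq_mul_right (pow_pos hp.out.pos _) h5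
  have h7 : finrank ℚ F = finrank ℚ K * p ^ j := by
    rw [← Module.finrank_mul_finrank ℚ K F, h6]
  rw [h7, ← h1] at h2
  have h8 : 2 * (finrank ℤ (Additive (𝓞 F)ˣ) + 1) =
      2 * (p ^ j * (finrank ℤ (Additive (𝓞 K)ˣ) + 1)) := by
    rw [h2]; ring
  omega

/-- The Herbrand quotient of the units. -/
lemma herbU (hH : Pool.Agent.H55.MU.S_HERB) [IsTotallyComplex K] {p k : ℕ} [hp : Fact p.Prime]
    (hcard : Nat.card Gal(L/K) = p ^ k) {σ : Gal(L/K)}
    (hσ : ∀ g : Gal(L/K), g ∈ Subgroup.zpowers σ) :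
    p ^ k * (nU (p ^ k) σ).range.relIndex (dU σ).ker ≤ (dU σ).range.relIndex (nU (p ^ k) σ).ker ∧
      (nU (p ^ k) σ).range.relIndex (dU σ).ker ≠ 0 := by
  refine hH (𝓞 L)ˣ p k (finrank ℤ (Additive (𝓞 K)ˣ) + 1) (sU σ) (dU σ) (nU (p ^ k) σ) ?_
    (fun _ => rfl) (fun _ => rfl) (fun j hj δj hδ => rank_fix hcard hσ hj δj hδ)
  intro u
  apply Units.ext
  rw [sU_iter]
  have : σ ^ (p ^ k) = 1 := by rw [← hcard]; exact pow_card_eq_one'
  rw [this, one_smul]

/-- The ideal of `K` which capitulates. -/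
lemma exists_ideal {n : ℕ} (hcard : Nat.card Gal(L/K) = n) {σ : Gal(L/K)}
    (hσ : ∀ g : Gal(L/K), g ∈ Subgroup.zpowers σ)
    (hur : ∀ Q : Ideal (𝓞 L), Q.IsMaximal → Q.ramificationIdx (𝓞 K) = 1) {y : (𝓞 L)ˣ}
    (hy : nU n σ y = 1) : ∃ (b : 𝓞 L) (I : (Ideal (𝓞 K))⁰), b ≠ 0 ∧ σ • b = y * b ∧
      Ideal.span {b} = (I : Ideal (𝓞 K)).map (algebraMap (𝓞 K) (𝓞 L)) := by
  obtain ⟨b, hb, hyb⟩ := h90 hcard hσ hy
  obtain ⟨I, hI⟩ := descent (K := K) _ (Ideal.span {b}) (by simpa using hb) le_rfl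
    (inv_span hσ hyb) (fun Q hQ => by rw [hur Q hQ]; exact one_dvd _)
  refine ⟨b, ⟨I, ?_⟩, hb, hyb, hI⟩
  rw [mem_nonZeroDivisors_iff_ne_zero]
  rintro rfl
  rw [Ideal.zero_eq_bot, Ideal.map_bot, Ideal.span_singleton_eq_bot] at hI
  exact hb hI

/-- **The degree of an unramified cyclic extension is at most the class number.** -/
theorem first_ineq (hH : Pool.Agent.H55.MU.S_HERB) [IsTotallyComplex K] {p k : ℕ}
    [hp : Fact p.Prime] (hcard : Nat.card Gal(L/K) = p ^ k) [IsCyclic Gal(L/K)]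
    (hur : ∀ Q : Ideal (𝓞 L), Q.IsMaximal → Q.ramificationIdx (𝓞 K) = 1) :
    p ^ k ≤ classNumber K := by
  classical
  obtain ⟨σ, hσ⟩ := IsCyclic.exists_generator (α := Gal(L/K))
  obtain ⟨h1, h2⟩ := herbU hH hcard hσ
  have hex := fun y : (nU (p ^ k) σ).ker => exists_ideal hcard hσ hur ((MonoidHom.mem_ker).1 y.2)
  choose b I hb hyb hI using hex
  have key : ∀ y y' : (nU (p ^ k) σ).ker, ClassGroup.mk0 (I y) = ClassGroup.mk0 (I y') →
      y⁻¹ * y' ∈ (dU σ).range.subgroupOf (nU (p ^ k) σ).ker := by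
    intro y y' h
    obtain ⟨x, x', hx, hx', hxx⟩ := ClassGroup.mk0_eq_mk0_iff.1 h
    have h3 := congrArg (Ideal.map (algebraMap (𝓞 K) (𝓞 L))) hxx
    rw [Ideal.map_mul, Ideal.map_mul, Ideal.map_span, Ideal.map_span, Set.image_singleton,
      Set.image_singleton, ← hI y, ← hI y', Ideal.span_singleton_mul_span_singleton,
      Ideal.span_singleton_mul_span_singleton, Ideal.span_singleton_eq_span_singleton] at h3
    obtain ⟨e, he⟩ := h3
    have h4 := congrArg (fun z => σ • z) he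
    simp only [smul_mul', smul_algebraMap] at h4
    rw [hyb y, hyb y'] at h4
    have hx0 : algebraMap (𝓞 K) (𝓞 L) x ≠ 0 := by
      rwa [Ne, FaithfulSMul.algebraMap_eq_zero_iff]
    have h5 : (algebraMap (𝓞 K) (𝓞 L) x * b y) * (((y : (𝓞 L)ˣ) : 𝓞 L) * σ • (e : 𝓞 L)) =
        (algebraMap (𝓞 K) (𝓞 L) x * b y) * (((y' : (𝓞 L)ˣ) : 𝓞 L) * (e : 𝓞 L)) := by
      linear_combination h4 - (((y' : (𝓞 L)ˣ) : 𝓞 L)) * he
    have h6 := mul_left_cancel₀ (mul_ne_zero hx0 (hb y)) h5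
    rw [Subgroup.mem_subgroupOf]
    refine ⟨e, ?_⟩
    show sU σ e / e = ((y⁻¹ * y' : (nU (p ^ k) σ).ker) : (𝓞 L)ˣ)
    rw [div_eq_iff_eq_mul, Subgroup.coe_mul, Subgroup.coe_inv, mul_assoc, eq_inv_mul_iff_mul_eq]
    apply Units.ext
    rw [Units.val_mul, Units.val_mul, sU_coe]
    exact h6
  have h3 : (dU σ).range.relIndex (nU (p ^ k) σ).ker ≤ classNumber K := by
    have h4 : (dU σ).range.relIndex (nU (p ^ k) σ).ker =
        Nat.card ((nU (p ^ k) σ).ker ⧸ (dU σ).range.subgroupOf (nU (p ^ k) σ).ker) := rfl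
    rw [h4, classNumber, ← Nat.card_eq_fintype_card]
    refine Nat.card_le_card_of_injective
      (fun q => ClassGroup.mk0 (I (Quotient.out q))) fun q q' hqq => ?_
    have h5 := key _ _ hqq
    rw [← QuotientGroup.eq] at h5
    rw [← Quotient.out_eq' q, ← Quotient.out_eq' q']
    exact h5
  have h5 : 1 ≤ (nU (p ^ k) σ).range.relIndex (dU σ).ker := Nat.one_le_iff_ne_zero.2 h2
  calc p ^ k = p ^ k * 1 := (mul_one _).symm
    _ ≤ p ^ k * (nU (p ^ k) σ).range.relIndex (dU σ).ker := Nat.mul_le_mul_left _ h5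
    _ ≤ _ := h1
    _ ≤ _ := h3

end

end Pool.Agent.H17.HKF
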