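import Pool.Agent.K4H28.MT.Opn
import Pool.Agent.K4H28.MT.Wey

/-!
# Semisimple elements of the Galois group

`X` is a projective hyperkähler variety over a number field. An element of the Galois group which
acts semisimply on `H²` acts semisimply on all `H^i`: its unipotent part on `H^i` commutes with
`so(H²)` and with the commutant of `so(H²)`, as the Galois group acts on this commutant through a
finite group.
-/

set_option autoImplicit false
set_option linter.style.haveILetI false
set_option linter.unusedSectionVars false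

namespace Pool.Agent.H17.HKF

open Module Module.End Polynomial NumberField IsDedekindDomain
open Pool.Agent.W401.Cheb Pool.Agent.N184.HK Pool.Agent.K4H28.MT
open scoped Classical

section lin

variable {K H : Type} [Field K] [IsAlgClosed K] [AddCommGroup H] [Module K H]
  [FiniteDimensional K H]

/-- The unipotent part of `φ`. -/
noncomputable def up (φ : H ≃ₗ[K] H) : Module.End K H := fop (en φ) (fun e => e⁻¹) * en φ

lemma fop_inv (φ : H ≃ₗ[K] H) : fop (en φ) (fun e => e⁻¹) * fop (en φ) (fun e => e) = 1 := by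
  rw [fop_mul]
  refine ext_gen (en φ) fun e x hx => ?_
  rw [fop_apply _ hx]
  by_cases hx0 : x = 0
  · rw [hx0]; simp
  have he : e ∈ (en φ).charpoly.roots := ne_bot_iff.1 fun h => hx0 (by
    rw [h, Submodule.mem_bot] at hx; exact hx)
  rw [inv_mul_cancel₀ (root_ne he), one_smul]
  rfl

lemma fop_comm_fop (φ : H ≃ₗ[K] H) (w w' : K → K) :
    Commute (fop (en φ) w) (fop (en φ) w') := by
  show _ * _ = _ * _
  rw [fop_mul, fop_mul]
  congr 1
  funext e
  exact mul_comm _ _

lemma up_nil (φ : H ≃ₗ[K] H) : IsNilpotent (up φ - 1) := by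
  have h1 : up φ - 1 = fop (en φ) (fun e => e⁻¹) * (en φ - fop (en φ) (fun e => e)) := by
    rw [mul_sub, fop_inv]; rfl
  rw [h1]
  have hc : Commute (fop (en φ) (fun e => e⁻¹)) (en φ - fop (en φ) (fun e => e)) :=
    ((self_comm_fop (en φ) _).symm).sub_right (fop_comm_fop φ _ _)
  exact Commute.isNilpotent_mul_left hc (nil_part _)

lemma up_apply (φ : H ≃ₗ[K] H) {e : K} {x : H} (hx : x ∈ (en φ).maxGenEigenspace e) :
    up φ x = e⁻¹ • φ x := by
  have h1 : φ x ∈ (en φ).maxGenEigenspace e :=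
    (en φ).mapsTo_maxGenEigenspace_of_comm (Commute.refl (en φ)) e hx
  show fop (en φ) (fun e => e⁻¹) (φ x) = _
  rw [fop_apply _ h1]

/-- Eigenvectors of the conjugation by `φ` commute with the unipotent part of `φ`. -/
lemma up_comm {φ : H ≃ₗ[K] H} {t : K} {B : Module.End K H} (hB : adE φ B = t • B) :
    Commute B (up φ) := by
  by_cases ht : t = 0
  · rw [ht, zero_smul] at hB
    have : B = 0 := by
      refine LinearMap.ext fun x => ?_
      have h1 := adE_apply φ B x
      rw [hB] at h1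
      exact (φ.map_eq_zero_iff.1 h1.symm)
    rw [this]
    exact Commute.zero_left _
  refine ext_gen (en φ) fun e x hx => ?_
  have hBe : B ∈ (adE φ).maxGenEigenspace t := by
    rw [Module.End.mem_maxGenEigenspace]
    refine ⟨1, ?_⟩
    rw [pow_one, LinearMap.sub_apply, hB]
    exact sub_self _
  have h1 := conj_gen hBe hx
  rw [Module.End.mul_apply, Module.End.mul_apply, up_apply φ hx, up_apply φ h1, map_smul,
    ← adE_apply, hB, LinearMap.smul_apply, smul_smul, mul_inv, mul_assoc]
  congr 1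
  rw [mul_comm e⁻¹, ← mul_assoc, inv_mul_cancel₀ ht, one_mul]

/-- `φ` is semisimple if its unipotent part is trivial. -/
lemma ss_of_up {φ : H ≃ₗ[K] H} (h : up φ = 1) : (en φ).IsSemisimple := by
  have h1 : ∀ e, ∀ x ∈ (en φ).maxGenEigenspace e, en φ x = e • x := by
    intro e x hx
    by_cases hx0 : x = 0
    · rw [hx0]; simp
    have he : e ∈ (en φ).charpoly.roots := ne_bot_iff.1 fun h => hx0 (by
      rw [h, Submodule.mem_bot] at hx; exact hx)
    have h2 := up_apply φ hx
    rw [h] at h2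
    have h3 : x = e⁻¹ • φ x := h2
    show φ x = e • x
    conv_rhs => rw [h3]
    rw [smul_smul, mul_inv_cancel₀ (root_ne he), one_smul]
  set P : K[X] := ∏ e ∈ (en φ).charpoly.roots.toFinset, (X - C e) with hP
  have hsep : P.Separable := by
    rw [hP, separable_prod_X_sub_C_iff']
    intro x _ y _ h
    exact h
  refine isSemisimple_of_squarefree_aeval_eq_zero hsep.squarefree ?_
  refine ext_gen (en φ) fun e x hx => ?_
  rw [LinearMap.zero_apply]
  by_cases hx0 : x = 0
  · rw [hx0, map_zero]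
  have he : e ∈ (en φ).charpoly.roots := ne_bot_iff.1 fun h => hx0 (by
    rw [h, Submodule.mem_bot] at hx; exact hx)
  have hv : (en φ).HasEigenvector e x := ⟨Module.End.mem_eigenspace_iff.2 (h1 e x hx), hx0⟩
  rw [Module.End.aeval_apply_of_hasEigenvector hv]
  have h2 : P.eval e = 0 := by
    rw [hP, eval_prod]
    exact Finset.prod_eq_zero (Multiset.mem_toFinset.2 he) (by simp)
  rw [h2, zero_smul]

lemma up_of_ss {φ : H ≃ₗ[K] H} (h : (en φ).IsSemisimple) {e : K} {x : H}
    (hx : x ∈ (en φ).maxGenEigenspace e) : φ x = e • x := by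
  rw [(isFinitelySemisimple_iff_isSemisimple.mpr h).maxGenEigenspace_eq_eigenspace] at hx
  exact Module.End.mem_eigenspace_iff.1 hx

/-- The projection to the eigenspace. -/
noncomputable def prj (φ : H ≃ₗ[K] H) (e : K) : Module.End K H :=
  fop (en φ) (fun y => if y = e then 1 else 0)

lemma prj_sum (φ : H ≃ₗ[K] H) : ∑ e ∈ (en φ).charpoly.roots.toFinset, prj φ e = 1 := by
  refine ext_gen (en φ) fun e x hx => ?_
  by_cases hx0 : x = 0
  · rw [hx0]; simp
  have he : e ∈ (en φ).charpoly.roots := ne_bot_iff.1 fun h => hx0 (by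
    rw [h, Submodule.mem_bot] at hx; exact hx)
  rw [LinearMap.sum_apply, Finset.sum_eq_single e]
  · rw [prj, fop_apply _ hx, if_pos rfl, one_smul]; rfl
  · intro b _ hb
    rw [prj, fop_apply _ hx, if_neg (Ne.symm hb), zero_smul]
  · intro h
    exact absurd (Multiset.mem_toFinset.2 he) h

lemma prj_left {φ : H ≃ₗ[K] H} (h : (en φ).IsSemisimple) (e : K) :
    en φ * prj φ e = e • prj φ e := by
  refine ext_gen (en φ) fun y x hx => ?_
  rw [Module.End.mul_apply, LinearMap.smul_apply, prj, fop_apply _ hx]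
  by_cases hy : y = e
  · rw [if_pos hy, one_smul, ← hy]
    exact up_of_ss h hx
  · rw [if_neg hy, zero_smul, map_zero, smul_zero]

lemma prj_right {φ : H ≃ₗ[K] H} (h : (en φ).IsSemisimple) (e : K) :
    prj φ e * en φ = e • prj φ e := by
  rw [← prj_left h e]
  exact (self_comm_fop (en φ) _).eq.symm

lemma ad_prj {φ : H ≃ₗ[K] H} (h : (en φ).IsSemisimple) (A : Module.End K H) {e e' : K}
    (he : e ≠ 0) : adE φ (prj φ e' * A * prj φ e) = (e' / e) • (prj φ e' * A * prj φ e) := by
  refine LinearMap.ext fun y => ?_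
  obtain ⟨x, rfl⟩ := φ.surjective y
  rw [adE_apply, LinearMap.smul_apply]
  have h1 : φ ((prj φ e' * A * prj φ e) x) = ((en φ * prj φ e') * A * prj φ e) x := rfl
  have h2 : (prj φ e' * A * prj φ e) (φ x) = (prj φ e' * A * (prj φ e * en φ)) x := rfl
  rw [h1, h2, prj_left h, prj_right h, smul_mul_assoc, smul_mul_assoc, mul_smul_comm,
    LinearMap.smul_apply, LinearMap.smul_apply, smul_smul, div_mul_cancel₀ _ he]

end lin

section gal

variable {K : Type} [Field K] [NumberField K] {Ω : Type} [Field Ω] [CharZero Ω] [IsAlgClosed Ω]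
  [TopologicalSpace Ω] [IsTopologicalRing Ω] [T2Space Ω] (X : HKVariety K Ω)

omit [IsTopologicalRing Ω] [T2Space Ω] [TopologicalSpace Ω] [NumberField K] [Field K] in
/-- The unipotent part commutes with the image of `so(H²)` if the action on `H²` is semisimple. -/
lemma up_rho {d : ℕ} {c : ℚ} {Y : Cohomology Ω d c} (F : Y.Auto) (h2 : (en (F.φ 2)).IsSemisimple)
    (i : ℕ) (A : Module.End Ω (Y.H 2)) : Commute (Y.ρ i A) (up (F.φ i)) := by
  have h1 : A = ∑ e' ∈ (en (F.φ 2)).charpoly.roots.toFinset,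
      ∑ e ∈ (en (F.φ 2)).charpoly.roots.toFinset, prj (F.φ 2) e' * A * prj (F.φ 2) e := by
    have : A = (∑ e' ∈ (en (F.φ 2)).charpoly.roots.toFinset, prj (F.φ 2) e') * A *
        (∑ e ∈ (en (F.φ 2)).charpoly.roots.toFinset, prj (F.φ 2) e) := by
      rw [prj_sum, one_mul, mul_one]
    rw [Finset.sum_mul, Finset.sum_mul] at this
    simp only [Finset.mul_sum] at this
    exact this
  rw [h1, map_sum]
  refine Commute.sum_left _ _ _ fun e' _ => ?_
  rw [map_sum]
  refine Commute.sum_left _ _ _ fun e he => ?_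
  refine up_comm (t := e' / e) ?_
  rw [F.hc, ad_prj h2 A (root_ne (Multiset.mem_toFinset.1 he)), map_smul]

/-- The Galois group acts on the commutant of `so(H²)` through a finite group. -/
lemma finite_order (hPU : PotUnr X) (hcft : NoUnr K Ω) {i : ℕ} (hi : i ≤ X.d) (σ : GK K) :
    ∃ n : ℕ, 0 < n ∧ (rc X i σ) ^ n = 1 := by
  obtain ⟨U, hU, hUt⟩ := cen_trivial X hPU hcft hi
  haveI : Finite (GK K ⧸ U) := Subgroup.quotient_finite_of_isOpen _ hU
  haveI : U.FiniteIndex := Subgroup.finiteIndex_of_finite_quotient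
  obtain ⟨n, hn, -, hmem⟩ := Subgroup.exists_pow_mem_of_index_ne_zero
    (Subgroup.FiniteIndex.index_ne_zero (H := U)) σ
  refine ⟨n, hn, ?_⟩
  have h1 : (rc X i σ) ^ n = rc X i (σ ^ n) := (map_pow (rch X i) σ n).symm
  rw [h1]
  refine LinearMap.ext fun a => Subtype.ext ?_
  rw [rc_apply]
  exact hUt _ hmem a a.2

/-- The unipotent part commutes with the commutant of `so(H²)`. -/
lemma up_cen (hPU : PotUnr X) (hcft : NoUnr K Ω) {i : ℕ} (hi : i ≤ X.d) (σ : GK K)
    {a : Module.End Ω (X.E.X.H i)} (ha : a ∈ cen X.E.X i) :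
    Commute a (up ((X.E.F σ).φ i)) := by
  obtain ⟨n, hn, hσn⟩ := finite_order X hPU hcft hi σ
  have hn0 : ((n : ℕ) : Ω) ≠ 0 := by exact_mod_cast hn.ne'
  have hss : (rc X i σ).IsSemisimple := by
    refine isSemisimple_of_squarefree_aeval_eq_zero (p := Polynomial.X ^ n - 1) ?_ ?_
    · exact (Polynomial.X_pow_sub_one_separable_iff.2 hn0).squarefree
    · rw [map_sub, map_pow, aeval_X, map_one, hσn, sub_self]
  have htop := hss.iSup_eigenspace_eq_top
  let ψ : cen X.E.X i →ₗ[Ω] Module.End Ω (X.E.X.H i) :=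
    (LinearMap.mulRight Ω (up ((X.E.F σ).φ i)) - LinearMap.mulLeft Ω (up ((X.E.F σ).φ i))) ∘ₗ
      (cen X.E.X i).subtype
  have hψ : ∀ b : cen X.E.X i, ψ b = b * up ((X.E.F σ).φ i) - up ((X.E.F σ).φ i) * b :=
    fun b => rfl
  have hker : (⊤ : Submodule Ω (cen X.E.X i)) ≤ LinearMap.ker ψ := by
    rw [← htop]
    refine iSup_le fun t b hb => ?_
    rw [LinearMap.mem_ker, hψ, sub_eq_zero]
    refine up_comm (t := t) ?_
    have h1 := congrArg Subtype.val (Module.End.mem_eigenspace_iff.1 hb)
    exact h1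
  have h2 := hker (Submodule.mem_top (x := (⟨a, ha⟩ : cen X.E.X i)))
  rw [LinearMap.mem_ker, hψ, sub_eq_zero] at h2
  exact h2

/-- **An element of the Galois group which is semisimple on `H²` is semisimple on `H^i`.** -/
theorem semisimple_all (hPU : PotUnr X) (hcft : NoUnr K Ω) {i : ℕ} (hi : i ≤ X.d) (σ : GK K)
    (h2 : (X.E.Φ σ 2).IsSemisimple) : (X.E.Φ σ i).IsSemisimple := by
  refine ss_of_up (φ := (X.E.F σ).φ i) ?_
  have hrho := up_rho (X.E.F σ) h2 i
  have hT : up ((X.E.F σ).φ i) - 1 ∈ cen X.E.X i := by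
    intro A _
    exact (hrho A).sub_right (Commute.one_right _)
  have h0 := nil_center X.E.X hT (fun a ha =>
    ((up_cen X hPU hcft hi σ ha).symm).sub_left (Commute.one_left _)) (up_nil _)
  exact sub_eq_zero.1 h0

end gal

end Pool.Agent.H17.HKF
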