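import Pool.Agent.H17.HKF.FI
import Pool.Agent.H17.HKF.Sem
import Pool.Agent.H33MU.Herb
import Pool.Agent.K4H28.CF.Chi

/-!
# No unramified additive characters, unconditionally
-/

set_option autoImplicit false

namespace Pool.Agent.H17.HKF

open NumberField Pool.Agent.W401.Cheb Pool.Agent.N184.HK Pool.Agent.K4H28.MT

theorem t_FI : Pool.Agent.K4H28.CF.FI := by
  intro K L _ _ _ _ _ _ _ p k _ hcard hσ hur
  have : IsCyclic Gal(L/K) := ⟨hσ⟩
  exact first_ineq Pool.Agent.H33MU.main hcard hur

/-- **A number field has no unramified additive characters.** -/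
theorem noUnr (K Ω : Type) [Field K] [NumberField K] [Field Ω] [CharZero Ω]
    [TopologicalSpace Ω] [T2Space Ω] : NoUnr K Ω :=
  Pool.Agent.K4H28.CF.noUnr_of t_FI K Ω

end Pool.Agent.H17.HKF
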